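import Mathlib

namespace Pool.Agent.Results.MP_546b07_lc.No

/-- A directed path, as its nonempty list of vertices (consecutive vertices are joined by edges;
in an acyclic digraph the vertices of such a list are automatically distinct). -/
def IsPath {V : Type} (E : V → V → Prop) (l : List V) : Prop := l ≠ [] ∧ l.IsChain E

/-- The total weight of the edges of a path. -/
def wt {V : Type} (w : V → V → ℝ) (l : List V) : ℝ := ((l.zip l.tail).map fun e => w e.1 e.2).sum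

/-- `l` is a shortest path between its own endpoints. -/
def Shortest {V : Type} (E : V → V → Prop) (w : V → V → ℝ) (l : List V) : Prop :=
  IsPath E l ∧ ∀ l', IsPath E l' → l'.head? = l.head? → l'.getLast? = l.getLast? → wt w l ≤ wt w l'

/-- Vertices: sources, three middle vertices, sinks. -/
abbrev Vx (K : ℕ) := (Fin 3 × Fin K) ⊕ Fin 3 ⊕ (Fin 3 × Fin (K + 1))

def Ed {K : ℕ} : Vx K → Vx K → Prop
  | .inl _, .inr (.inl _) => True
  | .inr (.inl j), .inr (.inr t) => j ≠ t.1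
  | _, _ => False

def lay {K : ℕ} : Vx K → ℕ
  | .inl _ => 0
  | .inr (.inl _) => 1
  | .inr (.inr _) => 2

def wa (i : Fin 3) (k : ℕ) (j : Fin 3) : ℝ :=
  ![![12 * 2 ^ k - 8, 6 * 2 ^ k - 3, 2], ![12 * 2 ^ k - 6, 1, 2],
    ![12 * 2 ^ k - 6, 12 * 2 ^ k - 5, 2]] i j

def wb (i : Fin 3) (k : ℕ) (j : Fin 3) : ℝ :=
  ![![1, 1, 6 * 2 ^ k - 5], ![1, 1, 12 * 2 ^ k - 8], ![1, 6 * 2 ^ k - 5, 1]] i j

def W {K : ℕ} : Vx K → Vx K → ℝ
  | .inl s, .inr (.inl j) => wa s.1 s.2 j
  | .inr (.inl j), .inr (.inr t) => wb t.1 t.2 j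
  | _, _ => 1

theorem lay_lt {K : ℕ} {u v : Vx K} (h : Ed u v) : lay u < lay v := by
  rcases u with u | u | u <;> rcases v with v | v | v <;> simp_all [Ed, lay]

theorem acyc {K : ℕ} (v : Vx K) : ¬ Relation.TransGen Ed v v := by
  have : ∀ u v : Vx K, Relation.TransGen Ed u v → lay u < lay v := by
    intro u v h
    induction h with
    | single h => exact lay_lt h
    | tail _ h ih => exact ih.trans (lay_lt h)
  exact fun h => lt_irrefl _ (this v v h)

theorem W_pos {K : ℕ} (u v : Vx K) : 0 < W u v := by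
  rcases u with ⟨i, k⟩ | j | u <;> rcases v with v | v | ⟨i', k'⟩ <;> simp only [W, one_pos]
  · have : (1 : ℝ) ≤ 2 ^ (k : ℕ) := one_le_pow₀ (by norm_num)
    fin_cases i <;> fin_cases v <;> simp [wa] <;> linarith
  · have : (1 : ℝ) ≤ 2 ^ (k' : ℕ) := one_le_pow₀ (by norm_num)
    fin_cases i' <;> fin_cases j <;> simp [wb] <;> linarith

theorem paths {K : ℕ} (s : Fin 3 × Fin K) (t : Fin 3 × Fin (K + 1)) (l : List (Vx K))
    (h : IsPath Ed l) (h1 : l.head? = some (.inl s)) (h2 : l.getLast? = some (.inr (.inr t))) :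
    ∃ j, j ≠ t.1 ∧ l = [.inl s, .inr (.inl j), .inr (.inr t)] := by
  obtain ⟨-, h⟩ := h
  match l, h, h1, h2 with
  | [a], _, h1, h2 => simp at h1 h2; rw [h1] at h2; cases h2
  | [a, b], h, h1, h2 => simp at h h1 h2; subst h1 h2; exact absurd h (by simp [Ed])
  | [a, b, c], h, h1, h2 =>
    simp at h h1 h2; subst h1 h2
    rcases b with b | b | b
    · exact absurd h.1 (by simp [Ed])
    · exact ⟨b, h.2, rfl⟩
    · exact absurd h.1 (by simp [Ed])
  | a :: b :: c :: d :: l, h, _, _ =>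
    simp at h
    have a1 := lay_lt h.1
    have a2 := lay_lt h.2.1
    have a3 := lay_lt h.2.2.1
    have : lay d ≤ 2 := by rcases d with d | d | d <;> simp [lay]
    omega

theorem cmp {K : ℕ} (H : Vx K → Vx K → ℝ) (hH : ∀ l, Shortest Ed H l → Shortest Ed W l)
    (s : Fin 3 × Fin K) (t : Fin 3 × Fin (K + 1)) (j j' : Fin 3) (hj : j ≠ t.1) (hj' : j' ≠ t.1)
    (h : wa s.1 s.2 j + wb t.1 t.2 j < wa s.1 s.2 j' + wb t.1 t.2 j') :
    H (.inl s) (.inr (.inl j)) + H (.inr (.inl j)) (.inr (.inr t)) <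
      H (.inl s) (.inr (.inl j')) + H (.inr (.inl j')) (.inr (.inr t)) := by
  by_contra hc
  push Not at hc
  have hp : ∀ i, i ≠ t.1 → IsPath Ed ([.inl s, .inr (.inl i), .inr (.inr t)] : List (Vx K)) :=
    fun i hi => ⟨by simp, by simp [Ed, hi]⟩
  have hne : j ≠ j' := by rintro rfl; exact lt_irrefl _ h
  have := (hH _ ⟨hp j' hj', fun l' hl h1 h2 => by
    obtain ⟨i, hi, rfl⟩ := paths s t l' hl (by simpa using h1) (by simpa using h2)
    have : i = j ∨ i = j' := by omega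
    rcases this with rfl | rfl
    · simpa [wt] using hc
    · exact le_rfl⟩).2 _ (hp j hj) (by simp) (by simp)
  simp [wt, W] at this
  linarith

theorem core (K N : ℕ) (H : Vx K → Vx K → ℕ) (hN : ∀ u v, Ed u v → H u v ≤ N)
    (hH : ∀ l, Shortest Ed (fun u v => (H u v : ℝ)) l → Shortest Ed W l) : 2 ^ K ≤ 2 * N + 1 := by
  have c := fun s t j j' hj hj' h => (Nat.cast_lt (α := ℝ)).mp
    (by simpa using cmp (fun u v => (H u v : ℝ)) hH s t j j' hj hj' h :
      ((H (.inl s) (.inr (.inl j)) + H (.inr (.inl j)) (.inr (.inr t)) : ℕ) : ℝ) <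
      (H (.inl s) (.inr (.inl j')) + H (.inr (.inl j')) (.inr (.inr t)) : ℕ))
  let b : Fin 3 → Fin (K + 1) → Fin 3 → ℕ := fun i k j => H (.inr (.inl j)) (.inr (.inr (i, k)))
  have key : ∀ k (hk : k < K + 1), 2 ^ (k + 1) + b 2 ⟨k, hk⟩ 0 + b 0 ⟨k, hk⟩ 1 + b 2 0 1 + b 0 0 2 ≤
      2 + b 2 ⟨k, hk⟩ 1 + b 0 ⟨k, hk⟩ 2 + b 2 0 0 + b 0 0 1 := by
    intro k
    induction k with
    | zero => intro hk; have : (⟨0, hk⟩ : Fin (K + 1)) = 0 := rfl; rw [this]; omega
    | succ k ih =>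
      intro hk
      have ih := ih (by omega)
      have hk' : k < K := by omega
      have h1 : (1 : ℝ) ≤ 2 ^ k := one_le_pow₀ (by norm_num)
      have c1 := c (0, ⟨k, hk'⟩) (2, ⟨k, by omega⟩) 1 0 (by simp) (by simp)
        (by simp [wa, wb]; linarith)
      have c2 := c (0, ⟨k, hk'⟩) (0, ⟨k, by omega⟩) 2 1 (by simp) (by simp)
        (by simp [wa, wb]; linarith)
      have c3 := c (0, ⟨k, hk'⟩) (1, ⟨k, by omega⟩) 0 2 (by simp) (by simp)
        (by simp [wa, wb]; linarith)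
      have c4 := c (1, ⟨k, hk'⟩) (1, ⟨k, by omega⟩) 2 0 (by simp) (by simp)
        (by simp [wa, wb]; linarith)
      have c5 := c (1, ⟨k, hk'⟩) (0, 0) 1 2 (by simp) (by simp) (by simp [wa, wb]; norm_num)
      have c6 := c (1, ⟨k, hk'⟩) (2, ⟨k + 1, hk⟩) 0 1 (by simp) (by simp)
        (by simp [wa, wb, pow_succ]; linarith)
      have c7 := c (2, ⟨k, hk'⟩) (1, ⟨k, by omega⟩) 2 0 (by simp) (by simp)
        (by simp [wa, wb]; linarith)
      have c8 := c (2, ⟨k, hk'⟩) (2, 0) 0 1 (by simp) (by simp) (by simp [wa, wb]; linarith)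
      have c9 := c (2, ⟨k, hk'⟩) (0, ⟨k + 1, hk⟩) 1 2 (by simp) (by simp)
        (by simp [wa, wb, pow_succ]; linarith)
      simp only [b] at ih ⊢
      rw [pow_succ 2 (k + 1)]
      omega
  have h := key K (by omega)
  have n1 := hN (.inr (.inl 1)) (.inr (.inr (2, ⟨K, by omega⟩))) (by simp [Ed])
  have n2 := hN (.inr (.inl 2)) (.inr (.inr (0, ⟨K, by omega⟩))) (by simp [Ed])
  have n3 := hN (.inr (.inl 0)) (.inr (.inr (2, 0))) (by simp [Ed])
  have n4 := hN (.inr (.inl 1)) (.inr (.inr (0, 0))) (by simp [Ed])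
  simp only [b] at h
  rw [pow_succ] at h
  omega

theorem result (c : ℝ) :
    ∃ (V : Type) (_ : Fintype V) (E : V → V → Prop) (w : V → V → ℝ),
      2 ≤ Fintype.card V ∧ (∀ v, ¬ Relation.TransGen E v v) ∧ (∀ u v, E u v → 0 < w u v) ∧
      ∀ H : V → V → ℕ, (∀ l, Shortest E (fun u v => (H u v : ℝ)) l → Shortest E w l) →
        ∃ u v, E u v ∧ (Fintype.card V : ℝ) ^ c < H u v := by
  obtain ⟨a, ha⟩ := exists_nat_ge c
  have hlim := tendsto_pow_const_div_const_pow_of_one_lt a (r := 2) (by norm_num)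
  have hev := (hlim.eventually (gt_mem_nhds (show (0 : ℝ) < 1 / (3 * 12 ^ a) by positivity))).and
    (Filter.eventually_ge_atTop 1)
  obtain ⟨K, hK1, hK⟩ := hev.exists
  have hc : Fintype.card (Vx K) = 6 * K + 6 := by
    simp only [Fintype.card_sum, Fintype.card_prod, Fintype.card_fin]; ring
  refine ⟨Vx K, inferInstance, Ed, W, by omega, acyc, fun u v _ => W_pos u v, fun H hH => ?_⟩
  by_contra hh
  push Not at hh
  have hK' : (1 : ℝ) ≤ K := by exact_mod_cast hK
  have h1 := core K ((12 * K) ^ a) H (fun u v h => by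
    have h2 := hh u v h
    rw [hc] at h2
    have h3 : ((6 * K + 6 : ℕ) : ℝ) ^ c ≤ ((6 * K + 6 : ℕ) : ℝ) ^ (a : ℝ) :=
      Real.rpow_le_rpow_of_exponent_le (by push_cast; linarith) ha
    rw [Real.rpow_natCast] at h3
    have h4 : H u v ≤ (6 * K + 6) ^ a := by exact_mod_cast h2.trans h3
    exact h4.trans (Nat.pow_le_pow_left (by omega) a)) hH
  have h2 : (2 : ℝ) ^ K ≤ 2 * (12 * K) ^ a + 1 := by exact_mod_cast h1
  rw [div_lt_div_iff₀ (by positivity) (by positivity)] at hK1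
  have h3 : (1 : ℝ) ≤ (12 * K) ^ a := one_le_pow₀ (by linarith)
  rw [mul_pow] at h2 h3
  linarith

end Pool.Agent.Results.MP_546b07_lc.No
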